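import Pool.Agent.Helper5_Pauli.Fields

/-!
# ASSEMBLE, part 3: the estimates
-/

open MeasureTheory Complex ProbabilityTheory

namespace Pool.Agent.Helper5_Pauli

open Pool.Agent.Helper49_Pauli
open Pool.Agent.Helper61_Pauli (ev integrable_ev cj ev_cj)

set_option linter.unusedSectionVars false

variable {ι : Type} [Fintype ι]

/-- The product measure. -/
noncomputable abbrev mu (ι : Type) [Fintype ι] : Measure (EuclideanSpace ℝ ι × X3) :=
  (stdGaussian (EuclideanSpace ℝ ι)).prod (volume : Measure X3)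

/-- Nonnegative continuous functions whose position integral has polynomial growth. -/
structure GoodB (B : EuclideanSpace ℝ ι × X3 → ℝ) : Prop where
  cont : Continuous B
  nonneg : ∀ z, 0 ≤ B z
  bd : ∃ (A : ℝ) (m : ℕ), 0 ≤ A ∧ ∀ y, ∫⁻ x, ENNReal.ofReal (B (y, x)) ≤
      ENNReal.ofReal (A * (1 + ‖y‖ ^ 2) ^ m)

lemma GoodB.add {B C : EuclideanSpace ℝ ι × X3 → ℝ} (hB : GoodB B) (hC : GoodB C) :
    GoodB fun z => B z + C z := by
  obtain ⟨A, m, hA, hA'⟩ := hB.bd
  obtain ⟨A₂, n, hA₂, hA₂'⟩ := hC.bd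
  refine ⟨hB.cont.add hC.cont, fun z => add_nonneg (hB.nonneg z) (hC.nonneg z),
    A + A₂, m + n, by positivity, fun y => ?_⟩
  have h2 : (1 + ‖y‖ ^ 2) ^ m ≤ (1 + ‖y‖ ^ 2) ^ (m + n) :=
    pow_le_pow_right₀ (one_le_w y) (by omega)
  have h3 : (1 + ‖y‖ ^ 2) ^ n ≤ (1 + ‖y‖ ^ 2) ^ (m + n) :=
    pow_le_pow_right₀ (one_le_w y) (by omega)
  calc ∫⁻ x, ENNReal.ofReal (B (y, x) + C (y, x))
      = ∫⁻ x, (ENNReal.ofReal (B (y, x)) + ENNReal.ofReal (C (y, x))) :=
        lintegral_congr fun x => ENNReal.ofReal_add (hB.nonneg _) (hC.nonneg _)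
    _ = (∫⁻ x, ENNReal.ofReal (B (y, x))) + ∫⁻ x, ENNReal.ofReal (C (y, x)) := by
        apply lintegral_add_left
        exact ((hB.cont.comp (Continuous.prodMk_right y)).measurable).ennreal_ofReal
    _ ≤ ENNReal.ofReal (A * (1 + ‖y‖ ^ 2) ^ m) + ENNReal.ofReal (A₂ * (1 + ‖y‖ ^ 2) ^ n) :=
        add_le_add (hA' y) (hA₂' y)
    _ = ENNReal.ofReal (A * (1 + ‖y‖ ^ 2) ^ m + A₂ * (1 + ‖y‖ ^ 2) ^ n) :=
        (ENNReal.ofReal_add (by positivity) (by positivity)).symm
    _ ≤ _ := by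
        apply ENNReal.ofReal_le_ofReal
        rw [add_mul]
        gcongr

lemma goodB_zero : GoodB fun _ : EuclideanSpace ℝ ι × X3 => (0 : ℝ) :=
  ⟨continuous_const, fun _ => le_rfl, 0, 0, le_rfl, fun y => by simp⟩

lemma GoodB.sum {κ : Type*} (s : Finset κ) {B : κ → EuclideanSpace ℝ ι × X3 → ℝ}
    (h : ∀ a ∈ s, GoodB (B a)) : GoodB fun z => ∑ a ∈ s, B a z := by
  classical
  induction s using Finset.induction_on with
  | empty => simpa using goodB_zero
  | insert a s ha ih =>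
    simp only [Finset.sum_insert ha]
    exact (h a (Finset.mem_insert_self _ _)).add
      (ih fun b hb => h b (Finset.mem_insert_of_mem hb))

lemma GoodB.const_mul {B : EuclideanSpace ℝ ι × X3 → ℝ} (hB : GoodB B) {r : ℝ} (hr : 0 ≤ r) :
    GoodB fun z => r * B z := by
  obtain ⟨A, m, hA, hA'⟩ := hB.bd
  refine ⟨continuous_const.mul hB.cont, fun z => mul_nonneg hr (hB.nonneg z),
    r * A, m, by positivity, fun y => ?_⟩
  calc ∫⁻ x, ENNReal.ofReal (r * B (y, x))
      = ∫⁻ x, ENNReal.ofReal r * ENNReal.ofReal (B (y, x)) :=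
        lintegral_congr fun x => ENNReal.ofReal_mul hr
    _ = ENNReal.ofReal r * ∫⁻ x, ENNReal.ofReal (B (y, x)) := by
        apply lintegral_const_mul
        exact ((hB.cont.comp (Continuous.prodMk_right y)).measurable).ennreal_ofReal
    _ ≤ ENNReal.ofReal r * ENNReal.ofReal (A * (1 + ‖y‖ ^ 2) ^ m) := by
        gcongr
        exact hA' y
    _ = _ := by rw [← ENNReal.ofReal_mul hr, mul_assoc]

lemma Good.goodB {Φ : X3 → MvPolynomial ι ℂ} (h : Good Φ) :
    GoodB fun z : EuclideanSpace ℝ ι × X3 => ‖ev (Φ z.2) z.1‖ ^ 2 :=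
  ⟨h.cont.norm.pow 2, fun _ => by positivity, h.lintegral_le⟩

section plancherel

variable {D : Type} [NormedAddCommGroup D] [InnerProductSpace ℂ D]

lemma Good.measurable_norm {J : MvPolynomial ι ℂ →ₗ[ℂ] D}
    (hJ : ∀ P Q, inner ℂ (J P) (J Q) = ∫ y, (starRingEnd ℂ)
        (MvPolynomial.eval (fun i => ((y i : ℝ) : ℂ)) P) *
          MvPolynomial.eval (fun i => ((y i : ℝ) : ℂ)) Q ∂stdGaussian (EuclideanSpace ℝ ι))
    {Φ : X3 → MvPolynomial ι ℂ} (h : Good Φ) :
    Measurable fun x => ENNReal.ofReal (‖J (Φ x)‖ ^ 2) := by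
  have hm : Measurable fun z : EuclideanSpace ℝ ι × X3 =>
      ENNReal.ofReal (‖ev (Φ z.2) z.1‖ ^ 2) :=
    (h.cont.norm.pow 2).measurable.ennreal_ofReal
  simp only [ofReal_norm_sq hJ]
  exact hm.lintegral_prod_left'

lemma plancherel {J : MvPolynomial ι ℂ →ₗ[ℂ] D}
    (hJ : ∀ P Q, inner ℂ (J P) (J Q) = ∫ y, (starRingEnd ℂ)
        (MvPolynomial.eval (fun i => ((y i : ℝ) : ℂ)) P) *
          MvPolynomial.eval (fun i => ((y i : ℝ) : ℂ)) Q ∂stdGaussian (EuclideanSpace ℝ ι))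
    {κ : Type} [Fintype κ] {Φ : κ → X3 → MvPolynomial ι ℂ} (h : ∀ a, Good (Φ a)) {w : κ → ℝ}
    (hw : ∀ a, 0 ≤ w a) :
    ∫⁻ x, ENNReal.ofReal (∑ a, w a * ‖J (Φ a x)‖ ^ 2) =
      ∫⁻ z, ENNReal.ofReal (∑ a, w a * ‖ev (Φ a z.2) z.1‖ ^ 2) ∂mu ι := by
  have e1 : ∀ x, ENNReal.ofReal (∑ a, w a * ‖J (Φ a x)‖ ^ 2) =
      ∑ a, ENNReal.ofReal (w a) * ENNReal.ofReal (‖J (Φ a x)‖ ^ 2) := by
    intro x
    rw [ENNReal.ofReal_sum_of_nonneg fun a _ => mul_nonneg (hw a) (by positivity)]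
    exact Finset.sum_congr rfl fun a _ => ENNReal.ofReal_mul (hw a)
  have e2 : ∀ z : EuclideanSpace ℝ ι × X3,
      ENNReal.ofReal (∑ a, w a * ‖ev (Φ a z.2) z.1‖ ^ 2) =
      ∑ a, ENNReal.ofReal (w a) * ENNReal.ofReal (‖ev (Φ a z.2) z.1‖ ^ 2) := by
    intro z
    rw [ENNReal.ofReal_sum_of_nonneg fun a _ => mul_nonneg (hw a) (by positivity)]
    exact Finset.sum_congr rfl fun a _ => ENNReal.ofReal_mul (hw a)
  have m1 : ∀ a, Measurable fun x => ENNReal.ofReal (‖J (Φ a x)‖ ^ 2) :=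
    fun a => (h a).measurable_norm hJ
  have m2 : ∀ a, Measurable fun z : EuclideanSpace ℝ ι × X3 =>
      ENNReal.ofReal (‖ev (Φ a z.2) z.1‖ ^ 2) :=
    fun a => ((h a).cont.norm.pow 2).measurable.ennreal_ofReal
  simp only [e1, e2]
  rw [lintegral_finsetSum _ fun a _ => (m1 a).const_mul _,
    lintegral_finsetSum _ fun a _ => (m2 a).const_mul _]
  refine Finset.sum_congr rfl fun a _ => ?_
  rw [lintegral_const_mul _ (m1 a), lintegral_const_mul _ (m2 a), (h a).lintegral_norm hJ]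

end plancherel

lemma integral_le_of_lintegral {α : Type*} [MeasurableSpace α] {μ : Measure α} {f : α → ℝ}
    (hf : ∀ x, 0 ≤ f x) {c : ℝ} (hc : 0 ≤ c) (h : ∫⁻ x, ENNReal.ofReal (f x) ∂μ ≤ ENNReal.ofReal c) :
    ∫ x, f x ∂μ ≤ c := by
  by_cases hi : Integrable f μ
  · rw [← ofReal_integral_eq_lintegral_ofReal hi (Filter.Eventually.of_forall hf)] at h
    exact (ENNReal.ofReal_le_ofReal_iff hc).1 h
  · rw [integral_undef hi]
    exact hc

lemma lintegral_le_two {α : Type*} [MeasurableSpace α] {μ : Measure α} {f g h : α → ℝ} {a b : ℝ}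
    (ha : 0 ≤ a) (hb : 0 ≤ b) (hg : ∀ x, 0 ≤ g x) (hh : ∀ x, 0 ≤ h x) (hgm : Measurable g)
    (hhm : Measurable h)
    (hfg : ∀ x, f x ≤ a * g x + b * h x) {G H : ℝ} (hG0 : 0 ≤ G) (hH0 : 0 ≤ H)
    (hG : ∫⁻ x, ENNReal.ofReal (g x) ∂μ ≤ ENNReal.ofReal G)
    (hH : ∫⁻ x, ENNReal.ofReal (h x) ∂μ ≤ ENNReal.ofReal H) :
    ∫⁻ x, ENNReal.ofReal (f x) ∂μ ≤ ENNReal.ofReal (a * G + b * H) := by
  calc ∫⁻ x, ENNReal.ofReal (f x) ∂μ
      ≤ ∫⁻ x, (ENNReal.ofReal a * ENNReal.ofReal (g x) +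
          ENNReal.ofReal b * ENNReal.ofReal (h x)) ∂μ := by
        refine lintegral_mono fun x => ?_
        rw [← ENNReal.ofReal_mul ha, ← ENNReal.ofReal_mul hb,
          ← ENNReal.ofReal_add (mul_nonneg ha (hg x)) (mul_nonneg hb (hh x))]
        exact ENNReal.ofReal_le_ofReal (hfg x)
    _ = ENNReal.ofReal a * ∫⁻ x, ENNReal.ofReal (g x) ∂μ +
          ENNReal.ofReal b * ∫⁻ x, ENNReal.ofReal (h x) ∂μ := by
        rw [lintegral_add_left (hgm.ennreal_ofReal.const_mul _),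
          lintegral_const_mul _ hgm.ennreal_ofReal, lintegral_const_mul _ hhm.ennreal_ofReal]
    _ ≤ ENNReal.ofReal a * ENNReal.ofReal G + ENNReal.ofReal b * ENNReal.ofReal H := by
        gcongr
    _ = _ := by
        rw [← ENNReal.ofReal_mul ha, ← ENNReal.ofReal_mul hb,
          ← ENNReal.ofReal_add (mul_nonneg ha hG0) (mul_nonneg hb hH0)]

lemma continuous_squeezed (K : ι → ι → ℝ) (η : ι → ℝ) :
    Continuous fun y : EuclideanSpace ℝ ι => squeezed K η (fun i => y i) := by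
  unfold squeezed quad
  fun_prop

lemma continuous_ldq (K : ι → ι → ℝ) (η : ι → ℝ) (i : ι) :
    Continuous fun y : EuclideanSpace ℝ ι => ldq K η (fun i => y i) i := by
  unfold ldq
  fun_prop

/-- complexification of a real polynomial -/
noncomputable def cx (p : MvPolynomial ι ℝ) : MvPolynomial ι ℂ :=
  MvPolynomial.map Complex.ofRealHom p

lemma ev_cx (p : MvPolynomial ι ℝ) (y : EuclideanSpace ℝ ι) :
    ev (cx p) y = ((MvPolynomial.eval (fun i => y i) p : ℝ) : ℂ) := by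
  unfold ev cx
  induction p using MvPolynomial.induction_on with
  | C c => simp
  | add p q hp hq => rw [map_add, map_add, map_add, hp, hq]; push_cast; rfl
  | mul_X p j hp => rw [map_mul, map_mul, map_mul, hp]; simp

lemma pderiv_cx (p : MvPolynomial ι ℝ) (i : ι) :
    MvPolynomial.pderiv i (cx p) = cx (MvPolynomial.pderiv i p) :=
  MvPolynomial.pderiv_map

lemma norm_add_sq_le (a b : ℂ) : ‖a + b‖ ^ 2 ≤ 2 * ‖a‖ ^ 2 + 2 * ‖b‖ ^ 2 := by
  have h1 := norm_add_le a b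
  have h2 : ‖a + b‖ ^ 2 ≤ (‖a‖ + ‖b‖) ^ 2 := pow_le_pow_left₀ (norm_nonneg _) h1 2
  nlinarith [sq_nonneg (‖a‖ - ‖b‖)]

/-- pointwise comparison for the covariant part -/
lemma point_a (q T n : ℝ) (hn : 0 ≤ n) : q ^ 2 * n ≤ 2 * (T ^ 2 * n) + 2 * ((q - T) ^ 2 * n) := by
  nlinarith [mul_nonneg (sq_nonneg (q - 2 * T)) hn]

/-- pointwise comparison for the field energy -/
lemma point_b (q T dq l : ℝ) (u w : ℂ) :
    ‖u * (q : ℂ) + w * (dq : ℂ)‖ ^ 2 ≤ 2 * (T ^ 2 * ‖u + (l : ℂ) * w‖ ^ 2) +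
      4 * ((q - T) ^ 2 * ‖u‖ ^ 2 + (dq - T * l) ^ 2 * ‖w‖ ^ 2) := by
  have e : u * (q : ℂ) + w * (dq : ℂ) = (T : ℂ) * (u + (l : ℂ) * w) +
      (((q - T : ℝ) : ℂ) * u + ((dq - T * l : ℝ) : ℂ) * w) := by
    push_cast
    ring
  have hreal : ∀ (r : ℝ) (v : ℂ), ‖(r : ℂ) * v‖ ^ 2 = r ^ 2 * ‖v‖ ^ 2 := by
    intro r v
    rw [norm_mul, Complex.norm_real, mul_pow, Real.norm_eq_abs, sq_abs]
  rw [e]
  have h1 := norm_add_sq_le ((T : ℂ) * (u + (l : ℂ) * w))
    (((q - T : ℝ) : ℂ) * u + ((dq - T * l : ℝ) : ℂ) * w)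
  have h2 := norm_add_sq_le (((q - T : ℝ) : ℂ) * u) (((dq - T * l : ℝ) : ℂ) * w)
  rw [hreal] at h1
  rw [hreal, hreal] at h2
  linarith

theorem assemble : AssembleStatement := by
  intro cut L alpha hL halpha P D _ _ F ι _ _ G k c θ hk hpot hfe K η hKs hKp u0 u h0 hs0 h hs
    M N hM hN hyp1 hyp2 hyp3
  obtain ⟨J, -, hJX, hJa, hJ⟩ := Pool.Agent.Helper61_Pauli.fock ι D G
  have hMN : 0 < M * N := mul_pos hM hN
  -- basic functions
  set om : ι → ℝ := fun i => Real.sqrt (Helper49_Pauli.sq (k i)) with hom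
  have hom0 : ∀ i, 0 ≤ om i := fun i => Real.sqrt_nonneg _
  set nd : EuclideanSpace ℝ ι × X3 → ℝ :=
    fun z => ∑ s, ‖ev (D0 alpha k c θ u0 u z.2 s) z.1‖ ^ 2 with hnd
  set nw : EuclideanSpace ℝ ι × X3 → ℝ := fun z => ∑ s, ‖ev (W u0 u z.2 s) z.1‖ ^ 2 with hnw
  set nu : ι → EuclideanSpace ℝ ι × X3 → ℝ := fun i z =>
    ∑ s, ‖ev (MvPolynomial.C (u i z.2 s)) z.1‖ ^ 2 with hnu
  have gD : ∀ s, Good fun x => D0 alpha k c θ u0 u x s := good_D0 alpha k c θ h0 hs0 h hs
  have gW : ∀ s, Good fun x => W u0 u x s := good_W h0 hs0 h hs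
  have hBd : GoodB nd := GoodB.sum _ fun s _ => (gD s).goodB
  have hBw : GoodB nw := GoodB.sum _ fun s _ => (gW s).goodB
  have hBu : ∀ i, GoodB (nu i) := fun i => GoodB.sum _ fun s _ =>
    (good_C (comp_smooth (h i) s).continuous (comp_supp (hs i) s)).goodB
  set Bt : EuclideanSpace ℝ ι × X3 → ℝ := fun z =>
    (nd z + nw z) + ((∑ i, om i * nu i z) + (∑ i, om i) * nw z) with hBt
  have hB : GoodB Bt := (hBd.add hBw).add ((GoodB.sum _ fun i _ => (hBu i).const_mul (hom0 i)).add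
    (hBw.const_mul (Finset.sum_nonneg fun i _ => hom0 i)))
  obtain ⟨A, m, hA, hA'⟩ := hB.bd
  set δ : ℝ := min (M * N / 5) (N / 4) with hδ
  have hδ0 : 0 < δ := lt_min (by positivity) (by positivity)
  have hδ1 : δ ≤ M * N / 5 := min_le_left _ _
  have hδ2 : δ ≤ N / 4 := min_le_right _ _
  obtain ⟨p, hp⟩ := Pool.Agent.Helper75_Pauli.poly ι K η m (δ / (A + 1)) (by positivity) hKs hKp
  set q : EuclideanSpace ℝ ι → ℝ := fun y => MvPolynomial.eval (fun i => y i) p with hq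
  set T : EuclideanSpace ℝ ι → ℝ := fun y => squeezed K η (fun i => y i) with hT
  set dq : ι → EuclideanSpace ℝ ι → ℝ :=
    fun i y => MvPolynomial.eval (fun i => y i) (MvPolynomial.pderiv i p) with hdq
  set l : ι → EuclideanSpace ℝ ι → ℝ := fun i y => ldq K η (fun i => y i) i with hl
  set e : EuclideanSpace ℝ ι → ℝ := fun y => (q y - T y) ^ 2 + ∑ i, (dq i y - T y * l i y) ^ 2
    with he
  have he0 : ∀ y, 0 ≤ e y := fun y => add_nonneg (sq_nonneg _)
    (Finset.sum_nonneg fun i _ => sq_nonneg _)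
  have hqc : Continuous q := Pool.Agent.Helper75_Pauli.continuous_ev p
  have hdqc : ∀ i, Continuous (dq i) := fun i => Pool.Agent.Helper75_Pauli.continuous_ev _
  have hTc : Continuous T := continuous_squeezed K η
  have hlc : ∀ i, Continuous (l i) := continuous_ldq K η
  have hec : Continuous e := ((hqc.sub hTc).pow 2).add
    (continuous_finsetSum _ fun i _ => ((hdqc i).sub (hTc.mul (hlc i))).pow 2)
  have hp' : ∫⁻ y, ENNReal.ofReal ((1 + ‖y‖ ^ 2) ^ m * e y) ∂stdGaussian (EuclideanSpace ℝ ι) ≤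
      ENNReal.ofReal (δ / (A + 1)) := hp.le
  -- the error term
  have hErr : ∫⁻ z, ENNReal.ofReal (e z.1 * Bt z) ∂mu ι ≤ ENNReal.ofReal δ := by
    have hm : Measurable fun z : EuclideanSpace ℝ ι × X3 => ENNReal.ofReal (e z.1 * Bt z) :=
      ((hec.comp continuous_fst).mul hB.cont).measurable.ennreal_ofReal
    rw [lintegral_prod _ hm.aemeasurable]
    calc ∫⁻ y, ∫⁻ x, ENNReal.ofReal (e y * Bt (y, x)) ∂volume ∂stdGaussian (EuclideanSpace ℝ ι)
        = ∫⁻ y, ENNReal.ofReal (e y) * ∫⁻ x, ENNReal.ofReal (Bt (y, x)) ∂volume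
            ∂stdGaussian (EuclideanSpace ℝ ι) := by
          refine lintegral_congr fun y => ?_
          rw [← lintegral_const_mul]
          · exact lintegral_congr fun x => ENNReal.ofReal_mul (he0 y)
          · exact ((hB.cont.comp (Continuous.prodMk_right y)).measurable).ennreal_ofReal
      _ ≤ ∫⁻ y, ENNReal.ofReal A * ENNReal.ofReal ((1 + ‖y‖ ^ 2) ^ m * e y)
            ∂stdGaussian (EuclideanSpace ℝ ι) := by
          refine lintegral_mono fun y => ?_
          calc ENNReal.ofReal (e y) * ∫⁻ x, ENNReal.ofReal (Bt (y, x))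
              ≤ ENNReal.ofReal (e y) * ENNReal.ofReal (A * (1 + ‖y‖ ^ 2) ^ m) := by
                gcongr
                exact hA' y
            _ = ENNReal.ofReal A * ENNReal.ofReal ((1 + ‖y‖ ^ 2) ^ m * e y) := by
                rw [← ENNReal.ofReal_mul (he0 y), ← ENNReal.ofReal_mul hA]
                congr 1
                ring
      _ = ENNReal.ofReal A * ∫⁻ y, ENNReal.ofReal ((1 + ‖y‖ ^ 2) ^ m * e y)
            ∂stdGaussian (EuclideanSpace ℝ ι) := by
          rw [lintegral_const_mul]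
          have : Continuous fun y : EuclideanSpace ℝ ι => (1 + ‖y‖ ^ 2) ^ m * e y := by
            exact ((continuous_const.add (continuous_norm.pow 2)).pow m).mul hec
          exact this.measurable.ennreal_ofReal
      _ ≤ ENNReal.ofReal A * ENNReal.ofReal (δ / (A + 1)) := by gcongr
      _ = ENNReal.ofReal (A * (δ / (A + 1))) := (ENNReal.ofReal_mul hA).symm
      _ ≤ ENNReal.ofReal δ := by
          apply ENNReal.ofReal_le_ofReal
          rw [mul_div_assoc', div_le_iff₀ (by linarith)]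
          nlinarith
  have hemB : Measurable fun z : EuclideanSpace ℝ ι × X3 => e z.1 * Bt z :=
    ((hec.comp continuous_fst).mul hB.cont).measurable
  have heB0 : ∀ z : EuclideanSpace ℝ ι × X3, 0 ≤ e z.1 * Bt z :=
    fun z => mul_nonneg (he0 _) (hB.nonneg _)
  -- lower bounds for the total
  have hBt1 : ∀ z, nd z ≤ Bt z := fun z => by
    have h1 := hBw.nonneg z
    have h2 : 0 ≤ ∑ i, om i * nu i z := Finset.sum_nonneg fun i _ =>
      mul_nonneg (hom0 i) ((hBu i).nonneg z)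
    have h3 : 0 ≤ (∑ i, om i) * nw z := mul_nonneg (Finset.sum_nonneg fun i _ => hom0 i) h1
    simp only [hBt]
    linarith
  have hBt2 : ∀ z, nw z ≤ Bt z := fun z => by
    have h1 := hBd.nonneg z
    have h2 : 0 ≤ ∑ i, om i * nu i z := Finset.sum_nonneg fun i _ =>
      mul_nonneg (hom0 i) ((hBu i).nonneg z)
    have h3 : 0 ≤ (∑ i, om i) * nw z := mul_nonneg (Finset.sum_nonneg fun i _ => hom0 i)
      (hBw.nonneg z)
    simp only [hBt]
    linarith
  have hBt3 : ∀ z, (∑ i, om i * nu i z) + (∑ i, om i) * nw z ≤ Bt z := fun z => by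
    have h1 := hBd.nonneg z
    have h2 := hBw.nonneg z
    simp only [hBt]
    linarith
  have heq : ∀ y, (q y - T y) ^ 2 ≤ e y := fun y =>
    le_add_of_nonneg_right (Finset.sum_nonneg fun i _ => sq_nonneg _)
  -- the three hypotheses as integrals over the product
  have hyp1' : ∫⁻ z, ENNReal.ofReal (T z.1 ^ 2 * nd z) ∂mu ι ≤ ENNReal.ofReal (M * N) := by
    have hm : Measurable fun z : EuclideanSpace ℝ ι × X3 => ENNReal.ofReal (T z.1 ^ 2 * nd z) :=
      (((hTc.comp continuous_fst).pow 2).mul hBd.cont).measurable.ennreal_ofReal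
    rw [lintegral_prod _ hm.aemeasurable]
    refine le_trans (le_of_eq ?_) hyp1
    refine lintegral_congr fun y => lintegral_congr fun x => ?_
    simp only [hnd, ev_D0 alpha k c θ h0 h]
    rfl
  have hyp3' : ENNReal.ofReal N ≤ ∫⁻ z, ENNReal.ofReal (T z.1 ^ 2 * nw z) ∂mu ι := by
    have hm : Measurable fun z : EuclideanSpace ℝ ι × X3 => ENNReal.ofReal (T z.1 ^ 2 * nw z) :=
      (((hTc.comp continuous_fst).pow 2).mul hBw.cont).measurable.ennreal_ofReal
    rw [lintegral_prod _ hm.aemeasurable]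
    refine hyp3.trans (le_of_eq ?_)
    refine lintegral_congr fun y => lintegral_congr fun x => ?_
    simp only [hnw, ev_W]
    rfl
  set nl : EuclideanSpace ℝ ι × X3 → ℝ := fun z => ∑ i, om i *
    ∑ s, ‖ev (MvPolynomial.C (u i z.2 s)) z.1 + (l i z.1 : ℂ) * ev (W u0 u z.2 s) z.1‖ ^ 2
    with hnl
  have hnlc : Continuous nl := by
    refine continuous_finsetSum _ fun i _ => continuous_const.mul
      (continuous_finsetSum _ fun s _ => ?_)
    refine (Continuous.add ?_ ?_).norm.pow 2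
    · exact (good_C (comp_smooth (h i) s).continuous (comp_supp (hs i) s)).cont
    · exact (continuous_ofReal.comp ((hlc i).comp continuous_fst)).mul (gW s).cont
  have hnl0 : ∀ z, 0 ≤ nl z := fun z => Finset.sum_nonneg fun i _ => mul_nonneg (hom0 i)
    (Finset.sum_nonneg fun s _ => by positivity)
  have hyp2' : ∫⁻ z, ENNReal.ofReal (T z.1 ^ 2 * nl z) ∂mu ι ≤ ENNReal.ofReal (M * N) := by
    have hm : Measurable fun z : EuclideanSpace ℝ ι × X3 => ENNReal.ofReal (T z.1 ^ 2 * nl z) :=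
      (((hTc.comp continuous_fst).pow 2).mul hnlc).measurable.ennreal_ofReal
    rw [lintegral_prod _ hm.aemeasurable]
    refine le_trans (le_of_eq ?_) hyp2
    refine lintegral_congr fun y => lintegral_congr fun x => ?_
    simp only [hnl, ev_W, ev_C]
    rfl
  -- (a)
  have ha : ∫⁻ z, ENNReal.ofReal (q z.1 ^ 2 * nd z) ∂mu ι ≤
      ENNReal.ofReal (2 * (M * N) + 2 * δ) := by
    refine lintegral_le_two (g := fun z => T z.1 ^ 2 * nd z) (h := fun z => e z.1 * Bt z)
      (by norm_num) (by norm_num)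
      (fun z => mul_nonneg (sq_nonneg _) (hBd.nonneg z)) heB0
      (((hTc.comp continuous_fst).pow 2).mul hBd.cont).measurable hemB (fun z => ?_)
      hMN.le hδ0.le hyp1' hErr
    refine (point_a (q z.1) (T z.1) (nd z) (hBd.nonneg z)).trans ?_
    have : (q z.1 - T z.1) ^ 2 * nd z ≤ e z.1 * Bt z :=
      mul_le_mul (heq _) (hBt1 z) (hBd.nonneg z) (he0 _)
    linarith
  -- (c)
  have hc : ENNReal.ofReal N ≤ ENNReal.ofReal 2 *
      (∫⁻ z, ENNReal.ofReal (q z.1 ^ 2 * nw z) ∂mu ι) + ENNReal.ofReal (2 * δ) := by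
    refine hyp3'.trans ?_
    calc ∫⁻ z, ENNReal.ofReal (T z.1 ^ 2 * nw z) ∂mu ι
        ≤ ∫⁻ z, (ENNReal.ofReal 2 * ENNReal.ofReal (q z.1 ^ 2 * nw z) +
            ENNReal.ofReal 2 * ENNReal.ofReal (e z.1 * Bt z)) ∂mu ι := by
          refine lintegral_mono fun z => ?_
          rw [← ENNReal.ofReal_mul (by norm_num), ← ENNReal.ofReal_mul (by norm_num),
            ← ENNReal.ofReal_add (mul_nonneg (by norm_num)
              (mul_nonneg (sq_nonneg _) (hBw.nonneg z))) (mul_nonneg (by norm_num) (heB0 z))]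
          apply ENNReal.ofReal_le_ofReal
          refine (point_a (T z.1) (q z.1) (nw z) (hBw.nonneg z)).trans ?_
          have : (T z.1 - q z.1) ^ 2 * nw z ≤ e z.1 * Bt z := by
            have h1 : (T z.1 - q z.1) ^ 2 = (q z.1 - T z.1) ^ 2 := by ring
            rw [h1]
            exact mul_le_mul (heq _) (hBt2 z) (hBw.nonneg z) (he0 _)
          linarith
      _ = ENNReal.ofReal 2 * (∫⁻ z, ENNReal.ofReal (q z.1 ^ 2 * nw z) ∂mu ι) +
            ENNReal.ofReal 2 * ∫⁻ z, ENNReal.ofReal (e z.1 * Bt z) ∂mu ι := by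
          have hm1 : Measurable fun z : EuclideanSpace ℝ ι × X3 =>
              ENNReal.ofReal (q z.1 ^ 2 * nw z) :=
            (((hqc.comp continuous_fst).pow 2).mul hBw.cont).measurable.ennreal_ofReal
          rw [lintegral_add_left (hm1.const_mul _), lintegral_const_mul _ hm1,
            lintegral_const_mul _ hemB.ennreal_ofReal]
      _ ≤ _ := by
          rw [ENNReal.ofReal_mul (by norm_num : (0:ℝ) ≤ 2) (q := δ)]
          gcongr
  -- (b)
  have hb : ∫⁻ z, ENNReal.ofReal (∑ a : Fin 2 × ι, om a.2 *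
      ‖ev (Ai u0 u (cx p) a.2 z.2 a.1) z.1‖ ^ 2) ∂mu ι ≤
      ENNReal.ofReal (2 * (M * N) + 4 * δ) := by
    refine lintegral_le_two (g := fun z => T z.1 ^ 2 * nl z) (h := fun z => e z.1 * Bt z)
      (by norm_num) (by norm_num)
      (fun z => mul_nonneg (sq_nonneg _) (hnl0 z)) heB0
      (((hTc.comp continuous_fst).pow 2).mul hnlc).measurable hemB (fun z => ?_)
      hMN.le hδ0.le hyp2' hErr
    have hterm : ∀ i s, ‖ev (Ai u0 u (cx p) i z.2 s) z.1‖ ^ 2 ≤
        2 * (T z.1 ^ 2 * ‖ev (MvPolynomial.C (u i z.2 s)) z.1 +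
          (l i z.1 : ℂ) * ev (W u0 u z.2 s) z.1‖ ^ 2) +
        4 * (e z.1 * ‖ev (MvPolynomial.C (u i z.2 s)) z.1‖ ^ 2 +
          (dq i z.1 - T z.1 * l i z.1) ^ 2 * ‖ev (W u0 u z.2 s) z.1‖ ^ 2) := by
      intro i s
      rw [Ai, pderiv_cx, ev_add, ev_mul, ev_mul, ev_cx, ev_cx]
      refine (point_b (q z.1) (T z.1) (dq i z.1) (l i z.1) _ _).trans ?_
      have := mul_le_mul_of_nonneg_right (heq z.1)
        (sq_nonneg ‖ev (MvPolynomial.C (u i z.2 s)) z.1‖)
      linarith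
    have hsum : ∑ a : Fin 2 × ι, om a.2 * ‖ev (Ai u0 u (cx p) a.2 z.2 a.1) z.1‖ ^ 2 =
        ∑ i, om i * ∑ s, ‖ev (Ai u0 u (cx p) i z.2 s) z.1‖ ^ 2 := by
      rw [Fintype.sum_prod_type_right]
      refine Finset.sum_congr rfl fun i _ => ?_
      rw [Finset.mul_sum]
    rw [hsum]
    have hi : ∀ i, ∑ s, ‖ev (Ai u0 u (cx p) i z.2 s) z.1‖ ^ 2 ≤
        2 * (T z.1 ^ 2 * ∑ s, ‖ev (MvPolynomial.C (u i z.2 s)) z.1 +
          (l i z.1 : ℂ) * ev (W u0 u z.2 s) z.1‖ ^ 2) +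
        4 * (e z.1 * nu i z + e z.1 * nw z) := by
      intro i
      refine (Finset.sum_le_sum fun s _ => hterm i s).trans ?_
      have h1 : (dq i z.1 - T z.1 * l i z.1) ^ 2 ≤ e z.1 := by
        have h2 : (dq i z.1 - T z.1 * l i z.1) ^ 2 ≤ ∑ i, (dq i z.1 - T z.1 * l i z.1) ^ 2 :=
          Finset.single_le_sum (f := fun i => (dq i z.1 - T z.1 * l i z.1) ^ 2)
            (fun i _ => sq_nonneg _) (Finset.mem_univ i)
        exact h2.trans (le_add_of_nonneg_left (sq_nonneg _))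
      rw [Finset.sum_add_distrib, ← Finset.mul_sum, ← Finset.mul_sum, ← Finset.mul_sum,
        Finset.sum_add_distrib, ← Finset.mul_sum, ← Finset.mul_sum]
      have h3 := mul_le_mul_of_nonneg_right h1 (hBw.nonneg z)
      simp only [hnu, hnw] at h3 ⊢
      linarith
    calc ∑ i, om i * ∑ s, ‖ev (Ai u0 u (cx p) i z.2 s) z.1‖ ^ 2
        ≤ ∑ i, om i * (2 * (T z.1 ^ 2 * ∑ s, ‖ev (MvPolynomial.C (u i z.2 s)) z.1 +
          (l i z.1 : ℂ) * ev (W u0 u z.2 s) z.1‖ ^ 2) + 4 * (e z.1 * nu i z + e z.1 * nw z)) :=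
          Finset.sum_le_sum fun i _ => mul_le_mul_of_nonneg_left (hi i) (hom0 i)
      _ = 2 * (T z.1 ^ 2 * nl z) + 4 * (e z.1 * ((∑ i, om i * nu i z) + (∑ i, om i) * nw z)) := by
          simp only [hnl, Finset.mul_sum, Finset.sum_mul, mul_add, Finset.sum_add_distrib]
          congr 1
          · refine Finset.sum_congr rfl fun i _ => Finset.sum_congr rfl fun s _ => ?_
            ring
          · congr 1 <;> refine Finset.sum_congr rfl fun i _ => ?_ <;> ring
      _ ≤ 2 * (T z.1 ^ 2 * nl z) + 4 * (e z.1 * Bt z) := by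
          have := mul_le_mul_of_nonneg_left (hBt3 z) (he0 z.1)
          linarith
  -- the state
  refine ⟨psi J u0 u (cx p), isState_psi J (cx p) h0 hs0 h hs, ?_⟩
  have hst := isState_psi J (cx p) h0 hs0 h hs
  have hnorm : ENNReal.ofReal (Helper49_Pauli.normSq (psi J u0 u (cx p))) =
      ∫⁻ z, ENNReal.ofReal (q z.1 ^ 2 * nw z) ∂mu ι := by
    have hint : Integrable fun x => ∑ s, ‖psi J u0 u (cx p) x s‖ ^ 2 := by
      refine integrable_finsetSum _ fun s _ => ?_
      refine Continuous.integrable_of_hasCompactSupport ?_ ?_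
      · exact ((hst.1 s).continuous).norm.pow 2
      · exact (hst.2.1 s).comp_left (g := fun v : D => ‖v‖ ^ 2) (by simp)
    rw [Helper49_Pauli.normSq, ofReal_integral_eq_lintegral_ofReal hint
      (Filter.Eventually.of_forall fun x => Finset.sum_nonneg fun s _ => by positivity)]
    have h1 := plancherel hJ (κ := Fin 2) (Φ := fun s x => W u0 u x s * cx p)
      (fun s => (gW s).mul_right _) (w := fun _ => 1) (fun _ => zero_le_one)
    simp only [one_mul] at h1
    refine Eq.trans h1 (lintegral_congr fun z => ?_)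
    congr 1
    rw [hnw, Finset.mul_sum]
    refine Finset.sum_congr rfl fun s _ => ?_
    rw [ev_mul, ev_cx, norm_mul, Complex.norm_real, mul_pow, Real.norm_eq_abs, sq_abs, mul_comm]
  have hnlow : N / 4 ≤ Helper49_Pauli.normSq (psi J u0 u (cx p)) := by
    have hn0 : 0 ≤ Helper49_Pauli.normSq (psi J u0 u (cx p)) :=
      integral_nonneg fun x => Finset.sum_nonneg fun s _ => by positivity
    rw [← hnorm, ← ENNReal.ofReal_mul (by norm_num), ← ENNReal.ofReal_add (by positivity)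
      (by positivity), ENNReal.ofReal_le_ofReal_iff (by positivity)] at hc
    linarith
  refine ⟨by linarith [hnlow, hN], ?_⟩
  have hsymm := Pool.Agent.Helper49_Pauli.symm cut L hL P alpha halpha D F _ hst
  rw [hsymm]
  have hI1 : ∫ x, ∑ s, ‖dirac alpha F P (psi J u0 u (cx p)) x s‖ ^ 2 ≤ 2 * (M * N) + 2 * δ := by
    refine integral_le_of_lintegral (fun x => Finset.sum_nonneg fun s _ => by positivity)
      (by positivity) ?_
    have h1 := plancherel hJ (κ := Fin 2) (Φ := fun s x => D0 alpha k c θ u0 u x s * cx p)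
      (fun s => (gD s).mul_right _) (w := fun _ => 1) (fun _ => zero_le_one)
    simp only [one_mul] at h1
    refine le_trans (le_of_eq ?_) ha
    have h2 : ∀ x, ∑ s, ‖dirac alpha F P (psi J u0 u (cx p)) x s‖ ^ 2 =
        ∑ s, ‖J (D0 alpha k c θ u0 u x s * cx p)‖ ^ 2 := fun x =>
      Finset.sum_congr rfl fun s _ => by
        rw [dirac_psi alpha P F G k c θ hpot J hJX (cx p) h0 h x s]
    simp only [h2]
    refine Eq.trans h1 (lintegral_congr fun z => ?_)
    congr 1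
    rw [hnd, Finset.mul_sum]
    refine Finset.sum_congr rfl fun s _ => ?_
    rw [ev_mul, ev_cx, norm_mul, Complex.norm_real, mul_pow, Real.norm_eq_abs, sq_abs, mul_comm]
  have hI2 : ∫ x, ∑ s, (inner ℂ (psi J u0 u (cx p) x s)
      (fieldEnergy F (psi J u0 u (cx p) x s))).re ≤ 2 * (M * N) + 4 * δ := by
    have h2 : ∀ x, ∑ s, (inner ℂ (psi J u0 u (cx p) x s)
        (fieldEnergy F (psi J u0 u (cx p) x s))).re =
        ∑ a : Fin 2 × ι, om a.2 * ‖J (Ai u0 u (cx p) a.2 x a.1)‖ ^ 2 := fun x => by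
      rw [Fintype.sum_prod_type]
      exact Finset.sum_congr rfl fun s _ => energy_psi F G k hfe J hJa (cx p) x s
    simp only [h2]
    refine integral_le_of_lintegral (fun x => Finset.sum_nonneg fun a _ =>
      mul_nonneg (hom0 _) (by positivity)) (by positivity) ?_
    have h1 := plancherel hJ (κ := Fin 2 × ι) (Φ := fun a x => Ai u0 u (cx p) a.2 x a.1)
      (fun a => good_Ai (cx p) h0 hs0 h hs a.2 a.1) (w := fun a => om a.2) (fun a => hom0 _)
    exact h1.le.trans hb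
  nlinarith [mul_le_mul_of_nonneg_left hnlow hM.le]

end Pool.Agent.Helper5_Pauli
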