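import Pool.Agent.Helper5_Pauli.Good

/-!
# ASSEMBLE, part 2: the fields of the trial state
-/

open MeasureTheory Complex ProbabilityTheory

namespace Pool.Agent.Helper5_Pauli

open Pool.Agent.Helper49_Pauli
open Pool.Agent.Helper61_Pauli (ev integrable_ev cj ev_cj)

set_option linter.unusedSectionVars false

variable {ι : Type} [Fintype ι]

/-- The polynomial `h0 + sum h_i X_i`. -/
noncomputable def Lin (h0 : ℂ) (h : ι → ℂ) : MvPolynomial ι ℂ :=
  MvPolynomial.C h0 + ∑ i, MvPolynomial.C (h i) * MvPolynomial.X i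

lemma ev_Lin (h0 : ℂ) (h : ι → ℂ) (y : EuclideanSpace ℝ ι) :
    ev (Lin h0 h) y = h0 + ∑ i, h i * ((y i : ℝ) : ℂ) := by
  simp only [Lin, ev_add, ev_C, ev_sum, ev_mul, ev_X]

lemma good_Lin {h0 : X3 → ℂ} {h : ι → X3 → ℂ} (hc0 : Continuous h0) (hs0 : HasCompactSupport h0)
    (hc : ∀ i, Continuous (h i)) (hs : ∀ i, HasCompactSupport (h i)) :
    Good fun x => Lin (h0 x) (fun i => h i x) :=
  (good_C hc0 hs0).add (Good.sum _ fun i _ => good_single (hc i) (hs i) _)

/-- The wave function as a polynomial valued field. -/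
noncomputable def W (u0 : X3 → S2) (u : ι → X3 → S2) (x : X3) (s : Fin 2) : MvPolynomial ι ℂ :=
  Lin (u0 x s) (fun i => u i x s)

lemma ev_W (u0 : X3 → S2) (u : ι → X3 → S2) (x : X3) (s : Fin 2) (y : EuclideanSpace ℝ ι) :
    ev (W u0 u x s) y = wf u0 u (fun i => y i) x s := by
  rw [W, ev_Lin, wf, Pi.add_apply, Finset.sum_apply]
  congr 1
  refine Finset.sum_congr rfl fun i _ => ?_
  rw [Pi.smul_apply, smul_eq_mul, mul_comm]

/-- Coupling coefficients. -/
noncomputable def tau (alpha : ℝ) (k c : ι → X3) (θ : ι → ℝ) (x : X3) (j : Fin 3) (i : ι) : ℂ :=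
  ((Real.sqrt alpha * (Real.cos (dot (k i) x - θ i) * c i j /
    Real.sqrt (2 * Real.sqrt (sq (k i)))) : ℝ) : ℂ)

/-- The covariant derivative as a polynomial valued field. -/
noncomputable def R (alpha : ℝ) (k c : ι → X3) (θ : ι → ℝ) (u0 : X3 → S2) (u : ι → X3 → S2)
    (x : X3) (j : Fin 3) (s : Fin 2) : MvPolynomial ι ℂ :=
  Lin (-I * fderiv ℝ (fun z => u0 z s) x (Pi.single j 1))
    (fun i => -I * fderiv ℝ (fun z => u i z s) x (Pi.single j 1)) +
  Lin 0 (fun i => tau alpha k c θ x j i) * W u0 u x s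

/-- The Dirac operator as a polynomial valued field. -/
noncomputable def D0 (alpha : ℝ) (k c : ι → X3) (θ : ι → ℝ) (u0 : X3 → S2) (u : ι → X3 → S2)
    (x : X3) (s : Fin 2) : MvPolynomial ι ℂ :=
  (![R alpha k c θ u0 u x 0 1 + (MvPolynomial.C (-I) * R alpha k c θ u0 u x 1 1 +
      R alpha k c θ u0 u x 2 0),
    R alpha k c θ u0 u x 0 0 + (MvPolynomial.C I * R alpha k c θ u0 u x 1 0 +
      MvPolynomial.C (-1) * R alpha k c θ u0 u x 2 1)] : Fin 2 → MvPolynomial ι ℂ) s

section smooth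

variable {u0 : X3 → S2} {u : ι → X3 → S2}

lemma comp_smooth {f : X3 → S2} (h : ContDiff ℝ (⊤ : ℕ∞) f) (s : Fin 2) :
    ContDiff ℝ (⊤ : ℕ∞) fun x => f x s := contDiff_pi.1 h s

lemma comp_supp {f : X3 → S2} (h : HasCompactSupport f) (s : Fin 2) :
    HasCompactSupport fun x => f x s := h.comp_left (g := fun v : S2 => v s) rfl

lemma comp_diff {f : X3 → S2} (h : ContDiff ℝ (⊤ : ℕ∞) f) (s : Fin 2) :
    Differentiable ℝ fun x => f x s := (comp_smooth h s).differentiable (by simp)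

lemma deriv_cont {f : X3 → S2} (h : ContDiff ℝ (⊤ : ℕ∞) f) (s : Fin 2) (e : X3) :
    Continuous fun x => fderiv ℝ (fun z => f z s) x e := by
  have h1 : Continuous (fderiv ℝ fun z => f z s) := (comp_smooth h s).continuous_fderiv (by simp)
  exact h1.clm_apply continuous_const

lemma deriv_supp {f : X3 → S2} (h : HasCompactSupport f) (s : Fin 2) (e : X3) :
    HasCompactSupport fun x => fderiv ℝ (fun z => f z s) x e :=
  ((comp_supp h s).fderiv ℝ).comp_left (g := fun L : X3 →L[ℝ] ℂ => L e) rfl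

lemma good_W (h0 : ContDiff ℝ (⊤ : ℕ∞) u0) (hs0 : HasCompactSupport u0)
    (h : ∀ i, ContDiff ℝ (⊤ : ℕ∞) (u i)) (hs : ∀ i, HasCompactSupport (u i)) (s : Fin 2) :
    Good fun x => W u0 u x s :=
  good_Lin (comp_smooth h0 s).continuous (comp_supp hs0 s)
    (fun i => (comp_smooth (h i) s).continuous) (fun i => comp_supp (hs i) s)

lemma continuous_tau (alpha : ℝ) (k c : ι → X3) (θ : ι → ℝ) (j : Fin 3) (i : ι) :
    Continuous fun x => tau alpha k c θ x j i := by
  unfold tau dot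
  fun_prop

lemma Good.mul_tau {Φ : X3 → MvPolynomial ι ℂ} (hΦ : Good Φ) (alpha : ℝ) (k c : ι → X3)
    (θ : ι → ℝ) (j : Fin 3) : Good fun x => Lin 0 (fun i => tau alpha k c θ x j i) * Φ x := by
  have h1 : (fun x => Lin 0 (fun i => tau alpha k c θ x j i) * Φ x) =
      fun x => ∑ i, MvPolynomial.C (tau alpha k c θ x j i) * (Φ x * MvPolynomial.X i) := by
    funext x
    rw [Lin, map_zero, zero_add, Finset.sum_mul]
    refine Finset.sum_congr rfl fun i _ => ?_
    ring
  rw [h1]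
  exact Good.sum _ fun i _ => (hΦ.mul_right _).smul (continuous_tau alpha k c θ j i)

lemma good_R (alpha : ℝ) (k c : ι → X3) (θ : ι → ℝ)
    (h0 : ContDiff ℝ (⊤ : ℕ∞) u0) (hs0 : HasCompactSupport u0)
    (h : ∀ i, ContDiff ℝ (⊤ : ℕ∞) (u i)) (hs : ∀ i, HasCompactSupport (u i)) (j : Fin 3)
    (s : Fin 2) : Good fun x => R alpha k c θ u0 u x j s := by
  refine (good_Lin ?_ ?_ ?_ ?_).add ((good_W h0 hs0 h hs s).mul_tau alpha k c θ j)
  · exact continuous_const.mul (deriv_cont h0 s _)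
  · exact (deriv_supp hs0 s _).mul_left
  · exact fun i => continuous_const.mul (deriv_cont (h i) s _)
  · exact fun i => (deriv_supp (hs i) s _).mul_left

lemma good_D0 (alpha : ℝ) (k c : ι → X3) (θ : ι → ℝ)
    (h0 : ContDiff ℝ (⊤ : ℕ∞) u0) (hs0 : HasCompactSupport u0)
    (h : ∀ i, ContDiff ℝ (⊤ : ℕ∞) (u i)) (hs : ∀ i, HasCompactSupport (u i))
    (s : Fin 2) : Good fun x => D0 alpha k c θ u0 u x s := by
  have hR := good_R alpha k c θ h0 hs0 h hs
  fin_cases s
  · exact (hR 0 1).add (((hR 1 1).smul continuous_const).add (hR 2 0))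
  · exact (hR 0 0).add (((hR 1 0).smul continuous_const).add ((hR 2 1).smul continuous_const))

lemma ev_R (alpha : ℝ) (k c : ι → X3) (θ : ι → ℝ) (h0 : ContDiff ℝ (⊤ : ℕ∞) u0)
    (h : ∀ i, ContDiff ℝ (⊤ : ℕ∞) (u i)) (x : X3) (j : Fin 3) (s : Fin 2)
    (y : EuclideanSpace ℝ ι) : ev (R alpha k c θ u0 u x j s) y =
      cov (vp alpha k c θ (fun i => y i)) j (wf u0 u (fun i => y i)) x s := by
  rw [R, ev_add, ev_mul, ev_Lin, ev_Lin, ev_W, cov]
  congr 1
  · have h1 : (fun z => wf u0 u (fun i => y i) z s) =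
        fun z => u0 z s + ∑ i, ((y i : ℝ) : ℂ) * u i z s := by
      funext z
      rw [wf, Pi.add_apply, Finset.sum_apply]
      rfl
    have h2 : HasFDerivAt (fun z => u0 z s + ∑ i, ((y i : ℝ) : ℂ) * u i z s)
        (fderiv ℝ (fun z => u0 z s) x + ∑ i, ((y i : ℝ) : ℂ) • fderiv ℝ (fun z => u i z s) x) x := by
      refine ((comp_diff h0 s) x).hasFDerivAt.add (HasFDerivAt.fun_sum fun i _ => ?_)
      exact ((comp_diff (h i) s) x).hasFDerivAt.const_mul _
    rw [h1, h2.fderiv]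
    simp only [add_apply, sum_apply, smul_apply, smul_eq_mul]
    rw [mul_add, Finset.mul_sum]
    congr 1
    refine Finset.sum_congr rfl fun i _ => ?_
    ring
  · congr 1
    rw [zero_add, vp, Pi.smul_apply, fA, smul_eq_mul, Finset.mul_sum, Complex.ofReal_sum]
    refine Finset.sum_congr rfl fun i _ => ?_
    rw [tau, ph]
    push_cast
    ring

lemma ev_D0 (alpha : ℝ) (k c : ι → X3) (θ : ι → ℝ) (h0 : ContDiff ℝ (⊤ : ℕ∞) u0)
    (h : ∀ i, ContDiff ℝ (⊤ : ℕ∞) (u i)) (x : X3) (s : Fin 2)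
    (y : EuclideanSpace ℝ ι) : ev (D0 alpha k c θ u0 u x s) y =
      dop (vp alpha k c θ (fun i => y i)) (wf u0 u (fun i => y i)) x s := by
  have hR := ev_R alpha k c θ h0 h x
  rw [dop, ← pauliDot_eq]
  fin_cases s
  · simp only [D0, pauliDot, Fin.zero_eta, Matrix.cons_val_zero, ev_add, ev_mul, ev_C, hR,
      smul_eq_mul]
    ring
  · simp only [D0, pauliDot, Fin.mk_one, Matrix.cons_val_one, Matrix.cons_val_fin_one, ev_add,
      ev_mul, ev_C, hR, smul_eq_mul]
    ring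

end smooth

section state

variable {D : Type} [NormedAddCommGroup D] [InnerProductSpace ℂ D]

lemma J_C {J : MvPolynomial ι ℂ →ₗ[ℂ] D} (c : ℂ) (P : MvPolynomial ι ℂ) :
    J (MvPolynomial.C c * P) = c • J P := by
  rw [← MvPolynomial.smul_eq_C_mul, map_smul]

lemma J_Lin {J : MvPolynomial ι ℂ →ₗ[ℂ] D} (h0 : ℂ) (h : ι → ℂ) (P : MvPolynomial ι ℂ) :
    J (Lin h0 h * P) = h0 • J P + ∑ i, h i • J (MvPolynomial.X i * P) := by
  rw [Lin, add_mul, map_add, J_C, Finset.sum_mul, map_sum]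
  congr 1
  refine Finset.sum_congr rfl fun i _ => ?_
  rw [mul_assoc, J_C]

variable {u0 : X3 → S2} {u : ι → X3 → S2}

/-- The trial state. -/
noncomputable def psi (J : MvPolynomial ι ℂ →ₗ[ℂ] D) (u0 : X3 → S2) (u : ι → X3 → S2)
    (p : MvPolynomial ι ℂ) (x : X3) (s : Fin 2) : D := J (W u0 u x s * p)

lemma psi_eq (J : MvPolynomial ι ℂ →ₗ[ℂ] D) (p : MvPolynomial ι ℂ) (x : X3) (s : Fin 2) :
    psi J u0 u p x s = u0 x s • J p + ∑ i, u i x s • J (MvPolynomial.X i * p) := J_Lin _ _ _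

lemma isState_psi (J : MvPolynomial ι ℂ →ₗ[ℂ] D) (p : MvPolynomial ι ℂ)
    (h0 : ContDiff ℝ (⊤ : ℕ∞) u0) (hs0 : HasCompactSupport u0)
    (h : ∀ i, ContDiff ℝ (⊤ : ℕ∞) (u i)) (hs : ∀ i, HasCompactSupport (u i)) :
    IsState (psi J u0 u p) := by
  classical
  refine ⟨fun s => ?_, fun s => ?_, ?_⟩
  · simp only [psi_eq]
    exact ((comp_smooth h0 s).smul contDiff_const).add
      (ContDiff.sum fun i _ => (comp_smooth (h i) s).smul contDiff_const)
  · simp only [psi_eq]
    refine HasCompactSupport.add (comp_supp hs0 s).smul_right ?_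
    have : ∀ t : Finset ι, HasCompactSupport fun x => ∑ i ∈ t, u i x s • J (MvPolynomial.X i * p) := by
      intro t
      induction t using Finset.induction_on with
      | empty =>
        simp only [Finset.sum_empty]
        exact HasCompactSupport.zero
      | insert a t ha ih =>
        simp only [Finset.sum_insert ha]
        exact (comp_supp (hs a) s).smul_right.add ih
    exact this _
  · refine ⟨Submodule.span ℂ (Set.insert (J p) (Set.range fun i => J (MvPolynomial.X i * p))),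
      FiniteDimensional.span_of_finite ℂ ((Set.finite_range _).insert _), fun x s => ?_⟩
    rw [psi_eq]
    refine Submodule.add_mem _ (Submodule.smul_mem _ _ (Submodule.subset_span (Or.inl rfl)))
      (Submodule.sum_mem _ fun i _ => Submodule.smul_mem _ _ (Submodule.subset_span
        (Or.inr ⟨i, rfl⟩)))

lemma fderiv_psi (J : MvPolynomial ι ℂ →ₗ[ℂ] D) (p : MvPolynomial ι ℂ)
    (h0 : ContDiff ℝ (⊤ : ℕ∞) u0) (h : ∀ i, ContDiff ℝ (⊤ : ℕ∞) (u i)) (x e : X3) (s : Fin 2) :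
    fderiv ℝ (fun z => psi J u0 u p z s) x e =
      J (Lin (fderiv ℝ (fun z => u0 z s) x e) (fun i => fderiv ℝ (fun z => u i z s) x e) * p) := by
  have h1 : HasFDerivAt (fun z => psi J u0 u p z s)
      ((fderiv ℝ (fun z => u0 z s) x).smulRight (J p) +
        ∑ i, (fderiv ℝ (fun z => u i z s) x).smulRight (J (MvPolynomial.X i * p))) x := by
    simp only [psi_eq]
    exact (((comp_diff h0 s) x).hasFDerivAt.smul_const _).add
      (HasFDerivAt.fun_sum fun i _ => ((comp_diff (h i) s) x).hasFDerivAt.smul_const _)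
  rw [h1.fderiv, J_Lin]
  simp only [add_apply, sum_apply, ContinuousLinearMap.smulRight_apply]

variable {cut L : ℝ}

lemma dirac_psi (alpha : ℝ) (P : Polarization L) (F : Bosons (Mode cut L) D) [DecidableEq ι]
    (G : Bosons ι D) (k c : ι → X3) (θ : ι → ℝ)
    (hpot : ∀ x j v, potential F P x j v = ∑ i,
        ((Real.cos (dot (k i) x - θ i) * c i j / Real.sqrt (2 * Real.sqrt (sq (k i))) : ℝ) : ℂ) •
          (G.a i v + G.ad i v))
    (J : MvPolynomial ι ℂ →ₗ[ℂ] D) (hJX : ∀ i P, J (MvPolynomial.X i * P) = G.a i (J P) + G.ad i (J P))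
    (p : MvPolynomial ι ℂ) (h0 : ContDiff ℝ (⊤ : ℕ∞) u0) (h : ∀ i, ContDiff ℝ (⊤ : ℕ∞) (u i))
    (x : X3) (s : Fin 2) :
    dirac alpha F P (psi J u0 u p) x s = J (D0 alpha k c θ u0 u x s * p) := by
  have hR : ∀ (j : Fin 3) (s : Fin 2), (-I) • fderiv ℝ (fun y => psi J u0 u p y s) x (Pi.single j 1) +
      (Real.sqrt alpha : ℂ) • potential F P x j (psi J u0 u p x s) =
      J (R alpha k c θ u0 u x j s * p) := by
    intro j s
    rw [fderiv_psi J p h0 h, R, add_mul, map_add]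
    congr 1
    · rw [J_Lin, J_Lin, smul_add, Finset.smul_sum, smul_smul]
      congr 1
      refine Finset.sum_congr rfl fun i _ => ?_
      rw [smul_smul]
    · rw [mul_assoc, J_Lin, hpot, zero_smul, zero_add, Finset.smul_sum]
      refine Finset.sum_congr rfl fun i _ => ?_
      rw [psi, ← hJX, smul_smul, tau]
      congr 1
      push_cast
      ring
  rw [dirac]
  simp only [hR]
  fin_cases s
  · simp only [D0, pauliDot, Fin.zero_eta, Matrix.cons_val_zero, add_mul, map_add, mul_assoc, J_C]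
    rw [neg_smul]
    abel
  · simp only [D0, pauliDot, Fin.mk_one, Matrix.cons_val_one, Matrix.cons_val_fin_one, add_mul,
      map_add, mul_assoc, J_C]
    rw [neg_smul, one_smul]
    abel

/-- The field obtained by applying an annihilation operator. -/
noncomputable def Ai (u0 : X3 → S2) (u : ι → X3 → S2) (p : MvPolynomial ι ℂ) (i : ι) (x : X3)
    (s : Fin 2) : MvPolynomial ι ℂ :=
  MvPolynomial.C (u i x s) * p + W u0 u x s * MvPolynomial.pderiv i p

lemma good_Ai (p : MvPolynomial ι ℂ) (h0 : ContDiff ℝ (⊤ : ℕ∞) u0) (hs0 : HasCompactSupport u0)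
    (h : ∀ i, ContDiff ℝ (⊤ : ℕ∞) (u i)) (hs : ∀ i, HasCompactSupport (u i)) (i : ι) (s : Fin 2) :
    Good fun x => Ai u0 u p i x s :=
  (good_single (comp_smooth (h i) s).continuous (comp_supp (hs i) s) p).add
    ((good_W h0 hs0 h hs s).mul_right _)

lemma pderiv_W [DecidableEq ι] (p : MvPolynomial ι ℂ) (i : ι) (x : X3) (s : Fin 2) :
    MvPolynomial.pderiv i (W u0 u x s * p) = Ai u0 u p i x s := by
  have h1 : MvPolynomial.pderiv i (W u0 u x s) = MvPolynomial.C (u i x s) := by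
    rw [W, Lin, map_add, MvPolynomial.pderiv_C, zero_add, map_sum,
      Finset.sum_eq_single i]
    · rw [MvPolynomial.pderiv_C_mul, MvPolynomial.pderiv_X_self, mul_one]
    · intro j _ hj
      rw [MvPolynomial.pderiv_C_mul, MvPolynomial.pderiv_X_of_ne hj, mul_zero]
    · intro hi
      exact absurd (Finset.mem_univ i) hi
  rw [MvPolynomial.pderiv_mul, h1, Ai]

lemma energy_psi (F : Bosons (Mode cut L) D) [DecidableEq ι] (G : Bosons ι D) (k : ι → X3)
    (hfe : ∀ v, fieldEnergy F v = ∑ i, (Real.sqrt (sq (k i)) : ℂ) • G.ad i (G.a i v))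
    (J : MvPolynomial ι ℂ →ₗ[ℂ] D) (hJa : ∀ i P, G.a i (J P) = J (MvPolynomial.pderiv i P))
    (p : MvPolynomial ι ℂ) (x : X3) (s : Fin 2) :
    (inner ℂ (psi J u0 u p x s) (fieldEnergy F (psi J u0 u p x s))).re =
      ∑ i, Real.sqrt (sq (k i)) * ‖J (Ai u0 u p i x s)‖ ^ 2 := by
  rw [hfe, inner_sum, Complex.re_sum]
  refine Finset.sum_congr rfl fun i _ => ?_
  have h1 : G.a i (psi J u0 u p x s) = J (Ai u0 u p i x s) := by
    rw [psi, hJa, pderiv_W]
  rw [inner_smul_right, ← Pool.Agent.Helper61_Pauli.adj' G, h1, inner_self_eq_norm_sq_to_K,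
    Complex.re_ofReal_mul]
  congr 1
  norm_cast

end state

end Pool.Agent.Helper5_Pauli
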