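import Pool.Agent.Helper49_Pauli.Interface2
import Pool.Agent.Helper61_Pauli.Fock
import Pool.Agent.Helper75_Pauli.Poly
import Pool.Agent.Helper83_Pauli.Symm

/-!
# ASSEMBLE, part 1: polynomial valued fields
-/

open MeasureTheory Complex ProbabilityTheory

namespace Pool.Agent.Helper5_Pauli

open Pool.Agent.Helper49_Pauli
open Pool.Agent.Helper61_Pauli (ev integrable_ev cj ev_cj)

set_option linter.unusedSectionVars false

variable {ι : Type} [Fintype ι]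

lemma ev_add (P Q : MvPolynomial ι ℂ) (y : EuclideanSpace ℝ ι) :
    ev (P + Q) y = ev P y + ev Q y := by simp [ev]

lemma ev_mul (P Q : MvPolynomial ι ℂ) (y : EuclideanSpace ℝ ι) :
    ev (P * Q) y = ev P y * ev Q y := by simp [ev]

lemma ev_sub (P Q : MvPolynomial ι ℂ) (y : EuclideanSpace ℝ ι) :
    ev (P - Q) y = ev P y - ev Q y := by simp [ev]

lemma ev_C (c : ℂ) (y : EuclideanSpace ℝ ι) : ev (MvPolynomial.C c) y = c := by simp [ev]

lemma ev_X (i : ι) (y : EuclideanSpace ℝ ι) : ev (MvPolynomial.X i) y = ((y i : ℝ) : ℂ) := by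
  simp [ev]

lemma ev_zero (y : EuclideanSpace ℝ ι) : ev (0 : MvPolynomial ι ℂ) y = 0 := by simp [ev]

lemma ev_sum {κ : Type*} (s : Finset κ) (P : κ → MvPolynomial ι ℂ) (y : EuclideanSpace ℝ ι) :
    ev (∑ a ∈ s, P a) y = ∑ a ∈ s, ev (P a) y := by simp [ev]

lemma continuous_ev (P : MvPolynomial ι ℂ) : Continuous (ev P) := by
  induction P using MvPolynomial.induction_on with
  | C c =>
    have : ev (MvPolynomial.C c : MvPolynomial ι ℂ) = fun _ => c := funext fun y => ev_C c y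
    rw [this]
    exact continuous_const
  | add p q hp hq =>
    have : ev (p + q) = fun y => ev p y + ev q y := funext fun y => ev_add p q y
    rw [this]
    exact hp.add hq
  | mul_X p i hp =>
    have : ev (p * MvPolynomial.X i) = fun y => ev p y * ((y i : ℝ) : ℂ) :=
      funext fun y => by rw [ev_mul, ev_X]
    rw [this]
    exact hp.mul (continuous_ofReal.comp (by fun_prop))

lemma growthC (P : MvPolynomial ι ℂ) :
    ∃ A : ℝ, ∃ m : ℕ, 0 ≤ A ∧ ∀ y : EuclideanSpace ℝ ι, ‖ev P y‖ ≤ A * (1 + ‖y‖ ^ 2) ^ m := by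
  induction P using MvPolynomial.induction_on with
  | C a => exact ⟨‖a‖, 0, norm_nonneg _, fun y => by simp [ev]⟩
  | add p q hp hq =>
    obtain ⟨A, m, hA, hA'⟩ := hp
    obtain ⟨B, n, hB, hB'⟩ := hq
    refine ⟨A + B, m + n, by positivity, fun y => ?_⟩
    have h1 : (1 : ℝ) ≤ 1 + ‖y‖ ^ 2 := by nlinarith [sq_nonneg ‖y‖]
    have h2 : (1 + ‖y‖ ^ 2) ^ m ≤ (1 + ‖y‖ ^ 2) ^ (m + n) := pow_le_pow_right₀ h1 (by omega)
    have h3 : (1 + ‖y‖ ^ 2) ^ n ≤ (1 + ‖y‖ ^ 2) ^ (m + n) := pow_le_pow_right₀ h1 (by omega)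
    calc ‖ev (p + q) y‖ ≤ ‖ev p y‖ + ‖ev q y‖ := by
          rw [ev_add]; exact norm_add_le _ _
      _ ≤ A * (1 + ‖y‖ ^ 2) ^ m + B * (1 + ‖y‖ ^ 2) ^ n := add_le_add (hA' y) (hB' y)
      _ ≤ A * (1 + ‖y‖ ^ 2) ^ (m + n) + B * (1 + ‖y‖ ^ 2) ^ (m + n) := by gcongr
      _ = (A + B) * (1 + ‖y‖ ^ 2) ^ (m + n) := by ring
  | mul_X p i hp =>
    obtain ⟨A, m, hA, hA'⟩ := hp
    refine ⟨A, m + 1, hA, fun y => ?_⟩
    have h1 : |y i| ≤ 1 + ‖y‖ ^ 2 := by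
      have := Pool.Agent.Helper75_Pauli.abs_coord_le y i
      nlinarith [sq_nonneg (‖y‖ - 1), norm_nonneg y]
    calc ‖ev (p * MvPolynomial.X i) y‖ = ‖ev p y‖ * |y i| := by
          rw [ev_mul, ev_X, norm_mul, Complex.norm_real, Real.norm_eq_abs]
      _ ≤ (A * (1 + ‖y‖ ^ 2) ^ m) * (1 + ‖y‖ ^ 2) := by
          gcongr
          exact hA' y
      _ = A * (1 + ‖y‖ ^ 2) ^ (m + 1) := by ring

/-- Polynomial valued fields with compact support and polynomial growth. -/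
structure Good (Φ : X3 → MvPolynomial ι ℂ) : Prop where
  cont : Continuous fun z : EuclideanSpace ℝ ι × X3 => ev (Φ z.2) z.1
  supp : ∃ K : Set X3, IsCompact K ∧ ∀ x, x ∉ K → Φ x = 0
  bd : ∃ (A : ℝ) (m : ℕ), 0 ≤ A ∧ ∀ x y, ‖ev (Φ x) y‖ ≤ A * (1 + ‖y‖ ^ 2) ^ m

lemma one_le_w (y : EuclideanSpace ℝ ι) : (1 : ℝ) ≤ 1 + ‖y‖ ^ 2 := by
  nlinarith [sq_nonneg ‖y‖]

lemma Good.add {Φ Ψ : X3 → MvPolynomial ι ℂ} (h : Good Φ) (h' : Good Ψ) :
    Good fun x => Φ x + Ψ x := by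
  obtain ⟨K, hK, hK'⟩ := h.supp
  obtain ⟨L, hL, hL'⟩ := h'.supp
  obtain ⟨A, m, hA, hA'⟩ := h.bd
  obtain ⟨B, n, hB, hB'⟩ := h'.bd
  refine ⟨?_, ⟨K ∪ L, hK.union hL, fun x hx => ?_⟩, A + B, m + n, by positivity, fun x y => ?_⟩
  · simp only [ev_add]
    exact h.cont.add h'.cont
  · rw [Set.mem_union, not_or] at hx
    rw [hK' x hx.1, hL' x hx.2, add_zero]
  · have h2 : (1 + ‖y‖ ^ 2) ^ m ≤ (1 + ‖y‖ ^ 2) ^ (m + n) :=
      pow_le_pow_right₀ (one_le_w y) (by omega)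
    have h3 : (1 + ‖y‖ ^ 2) ^ n ≤ (1 + ‖y‖ ^ 2) ^ (m + n) :=
      pow_le_pow_right₀ (one_le_w y) (by omega)
    calc ‖ev (Φ x + Ψ x) y‖ ≤ ‖ev (Φ x) y‖ + ‖ev (Ψ x) y‖ := by
          rw [ev_add]; exact norm_add_le _ _
      _ ≤ A * (1 + ‖y‖ ^ 2) ^ m + B * (1 + ‖y‖ ^ 2) ^ n := add_le_add (hA' x y) (hB' x y)
      _ ≤ A * (1 + ‖y‖ ^ 2) ^ (m + n) + B * (1 + ‖y‖ ^ 2) ^ (m + n) := by gcongr
      _ = (A + B) * (1 + ‖y‖ ^ 2) ^ (m + n) := by ring

lemma good_zero : Good fun _ : X3 => (0 : MvPolynomial ι ℂ) :=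
  ⟨by simpa only [ev_zero] using continuous_const, ⟨∅, isCompact_empty, fun _ _ => rfl⟩,
    0, 0, le_rfl, fun x y => by simp [ev_zero]⟩

lemma Good.sum {κ : Type*} (s : Finset κ) {Φ : κ → X3 → MvPolynomial ι ℂ}
    (h : ∀ a ∈ s, Good (Φ a)) : Good fun x => ∑ a ∈ s, Φ a x := by
  classical
  induction s using Finset.induction_on with
  | empty => simpa using good_zero
  | insert a s ha ih =>
    simp only [Finset.sum_insert ha]
    exact (h a (Finset.mem_insert_self _ _)).add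
      (ih fun b hb => h b (Finset.mem_insert_of_mem hb))

lemma Good.mul_right {Φ : X3 → MvPolynomial ι ℂ} (h : Good Φ) (Q : MvPolynomial ι ℂ) :
    Good fun x => Φ x * Q := by
  obtain ⟨K, hK, hK'⟩ := h.supp
  obtain ⟨A, m, hA, hA'⟩ := h.bd
  obtain ⟨B, n, hB, hB'⟩ := growthC Q
  refine ⟨?_, ⟨K, hK, fun x hx => ?_⟩, A * B, m + n, by positivity, fun x y => ?_⟩
  · simp only [ev_mul]
    exact h.cont.mul ((continuous_ev Q).comp continuous_fst)
  · rw [hK' x hx, zero_mul]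
  · rw [ev_mul, norm_mul]
    calc ‖ev (Φ x) y‖ * ‖ev Q y‖ ≤ (A * (1 + ‖y‖ ^ 2) ^ m) * (B * (1 + ‖y‖ ^ 2) ^ n) :=
          mul_le_mul (hA' x y) (hB' y) (norm_nonneg _) (by positivity)
      _ = A * B * (1 + ‖y‖ ^ 2) ^ (m + n) := by rw [pow_add]; ring

lemma Good.smul {Φ : X3 → MvPolynomial ι ℂ} (h : Good Φ) {g : X3 → ℂ} (hg : Continuous g) :
    Good fun x => MvPolynomial.C (g x) * Φ x := by
  obtain ⟨K, hK, hK'⟩ := h.supp
  obtain ⟨A, m, hA, hA'⟩ := h.bd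
  obtain ⟨B, hB⟩ := hK.exists_bound_of_continuousOn hg.continuousOn
  refine ⟨?_, ⟨K, hK, fun x hx => ?_⟩, |B| * A, m, by positivity, fun x y => ?_⟩
  · simp only [ev_mul, ev_C]
    exact (hg.comp continuous_snd).mul h.cont
  · rw [hK' x hx, mul_zero]
  · by_cases hx : x ∈ K
    · rw [ev_mul, ev_C, norm_mul, mul_assoc]
      exact mul_le_mul ((hB x hx).trans (le_abs_self B)) (hA' x y) (norm_nonneg _) (abs_nonneg _)
    · rw [hK' x hx, mul_zero, ev_zero, norm_zero]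
      positivity

lemma good_single {h : X3 → ℂ} (hc : Continuous h) (hs : HasCompactSupport h)
    (Q : MvPolynomial ι ℂ) : Good fun x => MvPolynomial.C (h x) * Q := by
  obtain ⟨A, hA⟩ := hs.exists_bound_of_continuous hc
  obtain ⟨B, n, hB, hB'⟩ := growthC Q
  refine ⟨?_, ⟨tsupport h, hs, fun x hx => ?_⟩, |A| * B, n, by positivity, fun x y => ?_⟩
  · simp only [ev_mul, ev_C]
    exact (hc.comp continuous_snd).mul ((continuous_ev Q).comp continuous_fst)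
  · rw [image_eq_zero_of_notMem_tsupport hx, map_zero, zero_mul]
  · rw [ev_mul, ev_C, norm_mul, mul_assoc]
    exact mul_le_mul ((hA x).trans (le_abs_self A)) (hB' y) (norm_nonneg _) (abs_nonneg _)

lemma good_C {h : X3 → ℂ} (hc : Continuous h) (hs : HasCompactSupport h) :
    Good fun x => (MvPolynomial.C (h x) : MvPolynomial ι ℂ) := by
  simpa using good_single hc hs (1 : MvPolynomial ι ℂ)

/-- Integral over position: polynomial growth. -/
lemma Good.lintegral_le {Φ : X3 → MvPolynomial ι ℂ} (h : Good Φ) :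
    ∃ (A : ℝ) (m : ℕ), 0 ≤ A ∧ ∀ y, ∫⁻ x, ENNReal.ofReal (‖ev (Φ x) y‖ ^ 2) ≤
      ENNReal.ofReal (A * (1 + ‖y‖ ^ 2) ^ m) := by
  obtain ⟨K, hK, hK'⟩ := h.supp
  obtain ⟨A, m, hA, hA'⟩ := h.bd
  refine ⟨A ^ 2 * (volume K).toReal, m * 2, by positivity, fun y => ?_⟩
  have h1 : ∀ x, ENNReal.ofReal (‖ev (Φ x) y‖ ^ 2) ≤
      K.indicator (fun _ => ENNReal.ofReal (A ^ 2 * (1 + ‖y‖ ^ 2) ^ (m * 2))) x := by
    intro x
    by_cases hx : x ∈ K
    · rw [Set.indicator_of_mem hx]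
      apply ENNReal.ofReal_le_ofReal
      have := pow_le_pow_left₀ (norm_nonneg _) (hA' x y) 2
      rwa [mul_pow, ← pow_mul] at this
    · rw [hK' x hx, ev_zero]
      simp
  calc ∫⁻ x, ENNReal.ofReal (‖ev (Φ x) y‖ ^ 2)
      ≤ ∫⁻ x, K.indicator (fun _ => ENNReal.ofReal (A ^ 2 * (1 + ‖y‖ ^ 2) ^ (m * 2))) x :=
        lintegral_mono h1
    _ = ENNReal.ofReal (A ^ 2 * (1 + ‖y‖ ^ 2) ^ (m * 2)) * volume K := by
        rw [lintegral_indicator_const hK.measurableSet]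
    _ = ENNReal.ofReal (A ^ 2 * (volume K).toReal * (1 + ‖y‖ ^ 2) ^ (m * 2)) := by
        have hne : volume K ≠ ⊤ := hK.measure_lt_top.ne
        conv_lhs => rw [← ENNReal.ofReal_toReal hne]
        rw [← ENNReal.ofReal_mul (by positivity)]
        congr 1
        ring

section fock

variable {D : Type} [NormedAddCommGroup D] [InnerProductSpace ℂ D]

lemma ofReal_norm_sq {J : MvPolynomial ι ℂ →ₗ[ℂ] D}
    (hJ : ∀ P Q, inner ℂ (J P) (J Q) = ∫ y, (starRingEnd ℂ)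
        (MvPolynomial.eval (fun i => ((y i : ℝ) : ℂ)) P) *
          MvPolynomial.eval (fun i => ((y i : ℝ) : ℂ)) Q ∂stdGaussian (EuclideanSpace ℝ ι))
    (P : MvPolynomial ι ℂ) :
    ENNReal.ofReal (‖J P‖ ^ 2) =
      ∫⁻ y, ENNReal.ofReal (‖ev P y‖ ^ 2) ∂stdGaussian (EuclideanSpace ℝ ι) := by
  classical
  have hpt : ∀ y : EuclideanSpace ℝ ι, (starRingEnd ℂ)
        (MvPolynomial.eval (fun i => ((y i : ℝ) : ℂ)) P) *
          MvPolynomial.eval (fun i => ((y i : ℝ) : ℂ)) P = ((‖ev P y‖ ^ 2 : ℝ) : ℂ) := by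
    intro y
    rw [mul_comm, Complex.mul_conj, Complex.normSq_eq_norm_sq]
    rfl
  have hint : Integrable (fun y => ‖ev P y‖ ^ 2) (stdGaussian (EuclideanSpace ℝ ι)) := by
    have h1 := (integrable_ev (cj P * P)).norm
    refine h1.congr (Filter.Eventually.of_forall fun y => ?_)
    simp only
    rw [ev_mul, ev_cj, norm_mul, RCLike.norm_conj, ← _root_.sq]
  have h1 : ((‖J P‖ ^ 2 : ℝ) : ℂ) =
      ((∫ y, ‖ev P y‖ ^ 2 ∂stdGaussian (EuclideanSpace ℝ ι) : ℝ) : ℂ) := by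
    have h2 := hJ P P
    rw [inner_self_eq_norm_sq_to_K] at h2
    have h3 : ((‖J P‖ ^ 2 : ℝ) : ℂ) = ((‖J P‖ : ℝ) : ℂ) ^ 2 := by push_cast; rfl
    rw [h3]
    refine Eq.trans h2 ?_
    simp only [hpt]
    exact integral_ofReal
  have h4 : ‖J P‖ ^ 2 = ∫ y, ‖ev P y‖ ^ 2 ∂stdGaussian (EuclideanSpace ℝ ι) :=
    Complex.ofReal_injective h1
  rw [h4, ofReal_integral_eq_lintegral_ofReal hint
    (Filter.Eventually.of_forall fun y => by positivity)]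

/-- Plancherel type identity for polynomial valued fields. -/
lemma Good.lintegral_norm {J : MvPolynomial ι ℂ →ₗ[ℂ] D}
    (hJ : ∀ P Q, inner ℂ (J P) (J Q) = ∫ y, (starRingEnd ℂ)
        (MvPolynomial.eval (fun i => ((y i : ℝ) : ℂ)) P) *
          MvPolynomial.eval (fun i => ((y i : ℝ) : ℂ)) Q ∂stdGaussian (EuclideanSpace ℝ ι))
    {Φ : X3 → MvPolynomial ι ℂ} (h : Good Φ) :
    ∫⁻ x, ENNReal.ofReal (‖J (Φ x)‖ ^ 2) =
      ∫⁻ z, ENNReal.ofReal (‖ev (Φ z.2) z.1‖ ^ 2)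
        ∂((stdGaussian (EuclideanSpace ℝ ι)).prod (volume : Measure X3)) := by
  have hm : Measurable fun z : EuclideanSpace ℝ ι × X3 =>
      ENNReal.ofReal (‖ev (Φ z.2) z.1‖ ^ 2) :=
    (h.cont.norm.pow 2).measurable.ennreal_ofReal
  rw [lintegral_prod_symm _ hm.aemeasurable]
  refine lintegral_congr fun x => ?_
  rw [ofReal_norm_sq hJ]

end fock

end Pool.Agent.Helper5_Pauli
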